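import Pool.Agent.helper74.FD.SpecG

set_option autoImplicit false

open scoped MatrixGroups ContDiff Topology UpperHalfPlane ComplexConjugate
open UpperHalfPlane MeasureTheory Filter Set

namespace Pool.Agent.FD

open Pool.Agent.RS Pool.Agent.MS
open Pool.Agent.EN (XG MG mkX mkM fl pr)

theorem URY_nbhd (V : Set SL(2, ℝ)) (hV : V ∈ 𝓝 (1 : SL(2, ℝ))) : ∃ r : ℝ, 0 < r ∧ ∀ h, bq r r r h → h ∈ V := by
  have hind := (Matrix.SpecialLinearGroup.isClosedEmbedding_val (n := Fin 2) (R := ℝ)).isInducing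
  obtain ⟨U, hU, hUV⟩ := Filter.mem_comap.1 ((Filter.ext_iff.1 (hind.nhds_eq_comap (1 : SL(2, ℝ))) V).1 hV)
  have hU' : (U : Set (Fin 2 → Fin 2 → ℝ)) ∈ @nhds (Fin 2 → Fin 2 → ℝ) inferInstance
      (fun i j => (1 : SL(2, ℝ)).1 i j) := hU
  obtain ⟨ε, hε, hb⟩ := (Metric.mem_nhds_iff (α := Fin 2 → Fin 2 → ℝ)).1 hU'
  refine ⟨ε / 2, half_pos hε, fun h hh => hUV ?_⟩
  obtain ⟨a1, a2, a3, a4⟩ := hh
  have hmem : (fun i j => h.1 i j : Fin 2 → Fin 2 → ℝ) ∈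
      Metric.ball (fun i j => (1 : SL(2, ℝ)).1 i j : Fin 2 → Fin 2 → ℝ) ε := by
    rw [Metric.mem_ball]
    refine (dist_pi_lt_iff hε).2 fun i => ?_
    refine (dist_pi_lt_iff hε).2 fun j => ?_
    rw [Real.dist_eq]
    fin_cases i <;> fin_cases j
    · have h1 : |h.1 0 0 - 1| < ε := by linarith
      simpa using h1
    · have h1 : |h.1 0 1| < ε := by linarith
      simpa using h1
    · have h1 : |h.1 1 0| < ε := by linarith
      simpa using h1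
    · have h1 : |h.1 1 1 - 1| < ε := by linarith
      simpa using h1
  exact hb hmem

theorem URY_ent (i j : Fin 2) : Continuous fun g : SL(2, ℝ) => g.1 i j :=
  continuous_subtype_val.matrix_elem i j

theorem URY_box (a : ℝ) (ha : 0 < a) (y : SL(2, ℝ)) : {x : SL(2, ℝ) | bq a a a (y⁻¹ * x)} ∈ 𝓝 y := by
  have hopen : IsOpen {x : SL(2, ℝ) | |(y⁻¹ * x).1 0 0 - 1| < a ∧ |(y⁻¹ * x).1 1 1 - 1| < a ∧
      |(y⁻¹ * x).1 0 1| < a ∧ |(y⁻¹ * x).1 1 0| < a} := by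
    have hc : ∀ i j : Fin 2, Continuous fun x : SL(2, ℝ) => (y⁻¹ * x).1 i j := fun i j =>
      (URY_ent i j).comp (continuous_const.mul continuous_id)
    exact (isOpen_lt ((hc 0 0).sub continuous_const).abs continuous_const).inter
      ((isOpen_lt ((hc 1 1).sub continuous_const).abs continuous_const).inter
        ((isOpen_lt (hc 0 1).abs continuous_const).inter (isOpen_lt (hc 1 0).abs continuous_const)))
  have hy : y ∈ {x : SL(2, ℝ) | |(y⁻¹ * x).1 0 0 - 1| < a ∧ |(y⁻¹ * x).1 1 1 - 1| < a ∧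
      |(y⁻¹ * x).1 0 1| < a ∧ |(y⁻¹ * x).1 1 0| < a} := by
    show |(y⁻¹ * y).1 0 0 - 1| < a ∧ |(y⁻¹ * y).1 1 1 - 1| < a ∧ |(y⁻¹ * y).1 0 1| < a ∧ |(y⁻¹ * y).1 1 0| < a
    rw [inv_mul_cancel]
    have e1 : (1 : SL(2, ℝ)).1 0 0 = 1 := by simp
    have e2 : (1 : SL(2, ℝ)).1 1 1 = 1 := by simp
    have e3 : (1 : SL(2, ℝ)).1 0 1 = 0 := by simp
    have e4 : (1 : SL(2, ℝ)).1 1 0 = 0 := by simp
    rw [e1, e2, e3, e4]
    simp [ha]
  refine Filter.mem_of_superset (hopen.mem_nhds hy) ?_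
  rintro x ⟨h1, h2, h3, h4⟩
  exact ⟨h1.le, h2.le, h3.le, h4.le⟩

theorem URY_proof (hGLC : RS.GLC_stmt) (hBXM : MS.BXM_stmt) : URY_stmt := by
  intro Γ C1 C2 hΓ hC1 hC2 hdis hinv1 hinv2
  obtain ⟨-, -, hcpt, -⟩ := hGLC
  obtain ⟨K, hK, hcov⟩ := hΓ.cocompact
  have hK' : IsCompact {g : SL(2, ℝ) | g • I ∈ K} := hcpt K hK
  have hD : IsCompact (C1 ∩ {g : SL(2, ℝ) | g • I ∈ K}) := hK'.inter_left hC1
  have hn : IsOpen {q : SL(2, ℝ) × SL(2, ℝ) | q.1 * q.2 ∉ C2} := by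
    have h1 : IsClosed {q : SL(2, ℝ) × SL(2, ℝ) | q.1 * q.2 ∈ C2} :=
      hC2.preimage (continuous_fst.mul continuous_snd)
    exact h1.isOpen_compl
  have hsub : (C1 ∩ {g : SL(2, ℝ) | g • I ∈ K}) ×ˢ ({1} : Set SL(2, ℝ)) ⊆
      {q : SL(2, ℝ) × SL(2, ℝ) | q.1 * q.2 ∉ C2} := by
    rintro ⟨y, h⟩ ⟨hy, hh⟩
    have hh' : h = 1 := hh
    show y * h ∉ C2
    rw [hh', mul_one]
    exact fun h2 => Set.disjoint_left.mp hdis hy.1 h2
  obtain ⟨U, V, hU, hV, hDU, h1V, hUV⟩ := generalized_tube_lemma hD isCompact_singleton hn hsub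
  obtain ⟨r, hr, hrV⟩ := URY_nbhd V (hV.mem_nhds (h1V rfl))
  obtain ⟨a0, ha0, -, hmain⟩ := hBXM Γ hΓ
  have ha : 0 < min a0 (r / 16) := lt_min ha0 (by positivity)
  obtain ⟨C, hC, hC'⟩ := hmain (min a0 (r / 16)) ha (min_le_left _ _)
  obtain ⟨A, hA, hcovA⟩ := hD.elim_nhds_subcover
    (fun y => {x : SL(2, ℝ) | bq (min a0 (r / 16)) (min a0 (r / 16)) (min a0 (r / 16)) (y⁻¹ * x)})
    (fun y _ => URY_box _ ha y)
  obtain ⟨Ψ, Ψa, Ψn, Ψl, hSF, h01, hn', hl', hone, hsup⟩ := hC' 0 A le_rfl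
  refine ⟨Ψ, Ψa, Ψn, Ψl, max C 1, hSF, h01, le_max_right _ _, fun g => (hn' g).trans (le_max_left _ _),
    fun g => ?_, fun g hg => ?_, fun g hg => ?_⟩
  · have h1 := hl' g
    rw [Real.exp_zero, mul_one] at h1
    exact h1.trans (le_max_left _ _)
  · obtain ⟨γ, hγ⟩ := hcov (g • I)
    have hγ' : ((γ : SL(2, ℝ)) * g) • I ∈ K := by
      rw [mul_smul]
      exact hγ
    have h1 : (γ : SL(2, ℝ)) * g ∈ C1 ∩ {g : SL(2, ℝ) | g • I ∈ K} := ⟨(hinv1 γ g).2 hg, hγ'⟩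
    have h2 := hcovA h1
    simp only [Set.mem_iUnion] at h2
    obtain ⟨y, hy, h3⟩ := h2
    refine hone g ⟨y, hy, γ, ?_⟩
    rw [neg_zero, Real.exp_zero, mul_one, mul_assoc]
    exact h3
  · by_contra hne
    obtain ⟨y, hy, γ, h1⟩ := hsup g hne
    rw [neg_zero, Real.exp_zero, mul_one] at h1
    have h16 : 16 * min a0 (r / 16) ≤ r := by
      have := min_le_right a0 (r / 16)
      linarith
    have h2 : bq r r r (y⁻¹ * (γ : SL(2, ℝ)) * g) :=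
      ⟨h1.1.trans h16, h1.2.1.trans h16, h1.2.2.1.trans h16, h1.2.2.2.trans h16⟩
    have h3 := hUV (Set.mk_mem_prod (hDU (hA y hy)) (hrV _ h2))
    have h4 : y * (y⁻¹ * (γ : SL(2, ℝ)) * g) ∉ C2 := h3
    rw [mul_assoc, mul_inv_cancel_left] at h4
    exact h4 ((hinv2 γ g).2 hg)

end Pool.Agent.FD
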